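import Pool.Agent.W327.KH.Grad
import Pool.Agent.W902.KH.Gauss
import Pool.Agent.W800.KH.Ramp

set_option autoImplicit false

/-! Minkowski content. -/

namespace Pool.Agent.W800.KH

open MeasureTheory Set Filter Topology
open scoped ENNReal InnerProductSpace
open Pool.Agent.W695.KH

section

variable {κ : Type} [Fintype κ]

theorem Nn_close (v : Eu κ → ℝ) (hb : ∀ x, |v x| ≤ 1) (hl : ∀ x y, |v x - v y| ≤ 1 * ‖x - y‖)
    (σ : ℝ) (hσ : 0 < σ) (x : Eu κ) : |Nn σ v x - v x| ≤ σ * ∫ w : Eu κ, ‖w‖ ^ 1 * ga w := by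
  obtain ⟨hpos, hcont, -, hint, h1, -, -⟩ := Pool.Agent.W902.KH.t_gauss κ
  have hvc : Continuous v := by
    have : LipschitzWith 1 v := LipschitzWith.of_dist_le_mul fun x y => by
      rw [Real.dist_eq, dist_eq_norm]
      exact_mod_cast hl x y
    exact this.continuous
  have hga : Integrable fun w : Eu κ => ga w := by
    simpa using hint 0
  have hi1 : Integrable fun w : Eu κ => v (x + σ • w) * ga w := by
    refine Integrable.mono' hga ?_ (Eventually.of_forall fun w => ?_)
    · exact ((hvc.comp (by fun_prop)).mul hcont).aestronglyMeasurable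
    · rw [norm_mul, Real.norm_eq_abs, Real.norm_eq_abs, abs_of_pos (hpos w)]
      have := mul_le_mul_of_nonneg_right (hb (x + σ • w)) (hpos w).le
      linarith
  have hi2 : Integrable fun w : Eu κ => v x * ga w := hga.const_mul _
  have h2 : Nn σ v x - v x = ∫ w : Eu κ, (v (x + σ • w) * ga w - v x * ga w) := by
    rw [integral_sub hi1 hi2, integral_const_mul, h1, mul_one]
    rfl
  rw [h2, ← integral_const_mul]
  refine (abs_integral_le_integral_abs).trans ?_
  refine integral_mono_ae (hi1.sub hi2).abs ((hint 1).const_mul σ) (Eventually.of_forall fun w => ?_)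
  show |v (x + σ • w) * ga w - v x * ga w| ≤ σ * (‖w‖ ^ 1 * ga w)
  rw [← sub_mul, abs_mul, abs_of_pos (hpos w), ← mul_assoc]
  refine mul_le_mul_of_nonneg_right ?_ (hpos w).le
  refine (hl _ _).trans ?_
  rw [one_mul, add_sub_cancel_left, norm_smul, Real.norm_eq_abs, abs_of_pos hσ, pow_one]

/-- the approximating function -/
theorem exists_fun (S : Set (Eu κ)) (hS : S.Nonempty) (ε a : ℝ) (hε : ε ≤ 1) (ha : 0 < a)
    (haε : a < ε) : ∃ (f : Eu κ → ℝ) (M : ℝ), Sm f (1 / a) M ∧ (∀ x, |f x| ≤ 1 / 2) ∧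
      (∀ x ∈ closure S, f x = 1 / 2 ∧ fderiv ℝ f x = 0) ∧
      (∀ x, x ∉ Metric.thickening ε S → f x = -(1 / 2) ∧ fderiv ℝ f x = 0) := by
  set v : Eu κ → ℝ := fun x => min (Metric.infDist x S) 1 with hv
  have hb : ∀ x, |v x| ≤ 1 := by
    intro x
    rw [abs_of_nonneg (le_min Metric.infDist_nonneg zero_le_one)]
    exact min_le_right _ _
  have hl : ∀ x y, |v x - v y| ≤ 1 * ‖x - y‖ := by
    intro x y
    refine (abs_min_sub_min_le_max _ _ _ _).trans ?_
    rw [sub_self, abs_zero, one_mul]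
    refine max_le ?_ (norm_nonneg _)
    have := (Metric.lipschitz_infDist_pt S).dist_le_mul x y
    rw [Real.dist_eq, dist_eq_norm] at this
    simpa using this
  set c : ℝ := ∫ w : Eu κ, ‖w‖ ^ 1 * ga w with hc
  have hc0 : 0 ≤ c := integral_nonneg fun w => mul_nonneg (by positivity)
    ((Pool.Agent.W902.KH.t_gauss κ).1 w).le
  set η : ℝ := (ε - a) / 4 with hη
  have hη0 : 0 < η := by rw [hη]; linarith
  set τ : ℝ := (ε - a) / 2 with hτ
  have hτ0 : 0 < τ := by rw [hτ]; linarith
  set σ : ℝ := η / (c + 1) with hσ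
  have hσ0 : 0 < σ := div_pos hη0 (by linarith)
  obtain ⟨hg1, -, hg2, hg3, -⟩ := Pool.Agent.W327.KH.t_grad Pool.Agent.W902.KH.t_gauss κ σ 1 v hσ0
    zero_le_one hb hl
  set g : Eu κ → ℝ := Nn σ v with hg
  have hclose : ∀ x, |g x - v x| ≤ η := by
    intro x
    refine (Nn_close v hb hl σ hσ0 x).trans ?_
    rw [← hc, hσ, div_mul_eq_mul_div, div_le_iff₀ (by linarith)]
    nlinarith
  have hder : ∀ x, HasFDerivAt (fun x => Ramp.hh a τ η (g x)) (Ramp.hd a τ η (g x) • fderiv ℝ g x) x := by
    intro x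
    have h1 : HasFDerivAt g (fderiv ℝ g x) x := (hg1.differentiable one_ne_zero x).hasFDerivAt
    exact (Ramp.hasDerivAt_hh ha hτ0 (g x)).comp_hasFDerivAt x h1
  refine ⟨fun x => Ramp.hh a τ η (g x), 1 / a * (1 / σ) + 4 / (a * τ), ⟨?_, ?_, ?_, ?_⟩, ?_, ?_, ?_⟩
  · intro x
    exact (Ramp.hh_bd ha hτ0 _).trans (by norm_num)
  · exact (Ramp.contDiff_hh ha hτ0).comp hg1
  · intro x
    rw [(hder x).fderiv, norm_smul, Real.norm_eq_abs]
    calc |Ramp.hd a τ η (g x)| * ‖fderiv ℝ g x‖ ≤ (1 / a) * 1 :=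
          mul_le_mul (Ramp.hd_bd ha hτ0 _).2 (hg2 x) (norm_nonneg _) (by positivity)
      _ = 1 / a := mul_one _
  · intro x y
    rw [(hder x).fderiv, (hder y).fderiv]
    have h1 : Ramp.hd a τ η (g x) • fderiv ℝ g x - Ramp.hd a τ η (g y) • fderiv ℝ g y =
        Ramp.hd a τ η (g x) • (fderiv ℝ g x - fderiv ℝ g y) +
          (Ramp.hd a τ η (g x) - Ramp.hd a τ η (g y)) • fderiv ℝ g y := by
      rw [smul_sub, sub_smul]; abel
    rw [h1]
    refine (norm_add_le _ _).trans ?_
    rw [norm_smul, norm_smul, Real.norm_eq_abs, Real.norm_eq_abs, add_mul]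
    have h2 : |g x - g y| ≤ ‖x - y‖ := by
      have := Convex.norm_image_sub_le_of_norm_fderiv_le (𝕜 := ℝ) (f := g) (s := univ) (C := 1)
        (x := y) (y := x) (fun z _ => hg1.differentiable one_ne_zero z) (fun z _ => hg2 z) convex_univ
        (mem_univ _) (mem_univ _)
      simpa using this
    refine add_le_add ?_ ?_
    · calc |Ramp.hd a τ η (g x)| * ‖fderiv ℝ g x - fderiv ℝ g y‖
          ≤ (1 / a) * (1 / σ * ‖x - y‖) :=
            mul_le_mul (Ramp.hd_bd ha hτ0 _).2 (hg3 x y) (norm_nonneg _) (by positivity)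
        _ = 1 / a * (1 / σ) * ‖x - y‖ := by ring
    · calc |Ramp.hd a τ η (g x) - Ramp.hd a τ η (g y)| * ‖fderiv ℝ g y‖
          ≤ (4 / (a * τ) * |g x - g y|) * 1 :=
            mul_le_mul (Ramp.hd_lip ha hτ0 _ _) (hg2 y) (norm_nonneg _) (by positivity)
        _ ≤ 4 / (a * τ) * ‖x - y‖ := by
            rw [mul_one]
            exact mul_le_mul_of_nonneg_left h2 (by positivity)
  · intro x
    exact Ramp.hh_bd ha hτ0 _
  · intro x hx
    have h0 : v x = 0 := by
      have : Metric.infDist x S = 0 := (Metric.mem_closure_iff_infDist_zero hS).1 hx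
      simp only [hv, this]
      norm_num
    have h1 : g x ≤ η := by
      have := (abs_le.1 (hclose x)).2
      linarith
    obtain ⟨h2, h3⟩ := Ramp.left ha hτ0 (g x) h1
    refine ⟨h2, ?_⟩
    rw [(hder x).fderiv, h3, zero_smul]
  · intro x hx
    have h0 : ε ≤ v x := by
      refine le_min ?_ hε
      by_contra h
      apply hx
      rw [Metric.mem_thickening_iff_infDist_lt hS]
      linarith
    have h1 : η + a + τ ≤ g x := by
      have := (abs_le.1 (hclose x)).1
      rw [hη] at this ⊢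
      rw [hτ]
      linarith
    obtain ⟨h2, h3⟩ := Ramp.right ha hτ0 (g x) h1
    refine ⟨h2, ?_⟩
    rw [(hder x).fderiv, h3, zero_smul]

theorem var_lower {μ : Measure (Eu κ)} [IsProbabilityMeasure μ] (f : Eu κ → ℝ) (hf : Continuous f)
    (hb : ∀ x, |f x| ≤ 1 / 2) (A C : Set (Eu κ)) (hA : MeasurableSet A) (hC : MeasurableSet C)
    (hAC : Disjoint A C) (h1 : ∀ x ∈ A, f x = 1 / 2) (h2 : ∀ x ∈ C, f x = -(1 / 2)) :
    μ.real A * μ.real C ≤ ∫ x, f x ^ 2 ∂μ - (∫ x, f x ∂μ) ^ 2 := by
  set e := ∫ x, f x ∂μ with he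
  have hfi : Integrable f μ := by
    refine Integrable.mono' (integrable_const (1 / 2 : ℝ)) hf.aestronglyMeasurable
      (Eventually.of_forall fun x => hb x)
  have hfi2 : Integrable (fun x => f x ^ 2) μ := by
    refine Integrable.mono' (integrable_const ((1 / 2 : ℝ) ^ 2)) (hf.pow 2).aestronglyMeasurable
      (Eventually.of_forall fun x => ?_)
    rw [Real.norm_eq_abs, abs_pow]
    exact pow_le_pow_left₀ (abs_nonneg _) (hb x) 2
  have h3 : ∫ x, (f x - e) ^ 2 ∂μ = ∫ x, f x ^ 2 ∂μ - e ^ 2 := by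
    have h4 : ∀ x, (f x - e) ^ 2 = f x ^ 2 - (2 * e) * f x + e ^ 2 := fun x => by ring
    simp_rw [h4]
    have h5 : Integrable (fun x => f x ^ 2 - (2 * e) * f x) μ := hfi2.sub (hfi.const_mul _)
    rw [integral_add h5 (integrable_const _),
      integral_sub hfi2 (hfi.const_mul _), integral_const_mul, ← he, integral_const]
    simp only [probReal_univ, one_smul]
    ring
  rw [← h3]
  have h4 : ∫ x, (A.indicator (fun _ => (1 / 2 - e) ^ 2) x + C.indicator (fun _ => (1 / 2 + e) ^ 2) x) ∂μ ≤
      ∫ x, (f x - e) ^ 2 ∂μ := by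
    refine integral_mono ?_ ?_ ?_
    · exact ((integrable_const _).indicator hA).add ((integrable_const _).indicator hC)
    · have h5 : (fun x => (f x - e) ^ 2) = fun x => f x ^ 2 - (2 * e) * f x + e ^ 2 := by
        funext x; ring
      rw [h5]
      exact (hfi2.sub (hfi.const_mul _)).add (integrable_const _)
    · intro x
      by_cases hxA : x ∈ A
      · have hxC : x ∉ C := fun h => hAC.le_bot ⟨hxA, h⟩
        simp only [indicator_of_mem hxA, indicator_of_notMem hxC, add_zero, h1 x hxA]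
        exact le_refl _
      · by_cases hxC : x ∈ C
        · simp only [indicator_of_notMem hxA, indicator_of_mem hxC, zero_add, h2 x hxC]
          nlinarith
        · simp only [indicator_of_notMem hxA, indicator_of_notMem hxC, add_zero]
          positivity
  refine le_trans ?_ h4
  rw [integral_add ((integrable_const _).indicator hA) ((integrable_const _).indicator hC),
    integral_indicator hA, integral_indicator hC, setIntegral_const, setIntegral_const]
  simp only [smul_eq_mul]
  have h5 : μ.real A + μ.real C ≤ 1 := by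
    rw [← measureReal_union hAC hC]
    exact measureReal_le_one
  have hA0 : 0 ≤ μ.real A := measureReal_nonneg
  have hC0 : 0 ≤ μ.real C := measureReal_nonneg
  have h6 : μ.real A * μ.real C ≤ (μ.real A * (1 / 2 - e) ^ 2 + μ.real C * (1 / 2 + e) ^ 2) *
      (μ.real A + μ.real C) := by
    nlinarith [sq_nonneg (μ.real A * (1 / 2 - e) - μ.real C * (1 / 2 + e))]
  have h7 : 0 ≤ μ.real A * (1 / 2 - e) ^ 2 + μ.real C * (1 / 2 + e) ^ 2 := by positivity
  nlinarith

theorem EV_eq (D : Set (Eu κ)) (μ : Measure (Eu κ)) (hμ : μ = (volume D)⁻¹ • volume.restrict D)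
    (v : Eu κ → ℝ) : EV D v = ∫ x, v x ∂μ := by
  rw [hμ, integral_smul_measure, ENNReal.toReal_inv, smul_eq_mul]
  unfold EV
  rw [div_eq_inv_mul]

theorem prob (D : Set (Eu κ)) (hD : IsCompact D) (hvol : 0 < volume D) (μ : Measure (Eu κ))
    (hμ : μ = (volume D)⁻¹ • volume.restrict D) : IsProbabilityMeasure μ := by
  refine ⟨?_⟩
  rw [hμ, Measure.smul_apply, Measure.restrict_apply_univ, smul_eq_mul]
  exact ENNReal.inv_mul_cancel hvol.ne' hD.measure_lt_top.ne

theorem key (D : Set (Eu κ)) (hD : IsCompact D) (hvol : 0 < volume D) (B : ℝ) (hB : 0 < B)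
    (H : ∀ (f : Eu κ → ℝ) (L M : ℝ), Sm f L M → (∀ x, |f x| ≤ 1 / 2) →
      VV D f ≤ B * EV D fun x => ‖fderiv ℝ f x‖) (μ : Measure (Eu κ))
    (hμ : μ = (volume D)⁻¹ • volume.restrict D) (S : Set (Eu κ)) (hS : S.Nonempty) (ε : ℝ)
    (hε : 0 < ε) (hε1 : ε ≤ 1) :
    μ.real (closure S) * (1 - μ.real (Metric.thickening ε S)) * ε ≤
      B * (μ.real (Metric.thickening ε S) - μ.real (closure S)) := by
  have hprob := prob D hD hvol μ hμ
  have hsub : closure S ⊆ Metric.thickening ε S := Metric.closure_subset_thickening hε S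
  have hmc : MeasurableSet (closure S) := isClosed_closure.measurableSet
  have hmt : MeasurableSet (Metric.thickening ε S) := Metric.isOpen_thickening.measurableSet
  have hdiff : μ.real (Metric.thickening ε S \ closure S) =
      μ.real (Metric.thickening ε S) - μ.real (closure S) := measureReal_sdiff hsub hmc
  have hcompl : μ.real (Metric.thickening ε S)ᶜ = 1 - μ.real (Metric.thickening ε S) :=
    probReal_compl_eq_one_sub hmt
  have hstep : ∀ a : ℝ, 0 < a → a < ε →
      μ.real (closure S) * (1 - μ.real (Metric.thickening ε S)) * a ≤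
      B * (μ.real (Metric.thickening ε S) - μ.real (closure S)) := by
    intro a ha haε
    obtain ⟨f, M, hf, hfb, hf1, hf2⟩ := exists_fun S hS ε a hε1 ha haε
    have h1 := var_lower (μ := μ) f hf.diff.continuous hfb (closure S) (Metric.thickening ε S)ᶜ hmc
      hmt.compl (disjoint_compl_right_iff_subset.2 hsub) (fun x hx => (hf1 x hx).1)
      (fun x hx => (hf2 x hx).1)
    have h2 := H f (1 / a) M hf hfb
    unfold VV at h2
    rw [EV_eq D μ hμ, EV_eq D μ hμ, EV_eq D μ hμ] at h2
    have h3 : ∫ x, ‖fderiv ℝ f x‖ ∂μ ≤ (1 / a) * μ.real (Metric.thickening ε S \ closure S) := by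
      have h4 : ∫ x, ‖fderiv ℝ f x‖ ∂μ ≤
          ∫ x, (Metric.thickening ε S \ closure S).indicator (fun _ => 1 / a) x ∂μ := by
        refine integral_mono_of_nonneg (Eventually.of_forall fun x => norm_nonneg _)
          ((integrable_const _).indicator (hmt.diff hmc)) (Eventually.of_forall fun x => ?_)
        by_cases hx : x ∈ Metric.thickening ε S \ closure S
        · rw [indicator_of_mem hx]
          exact hf.grad x
        · rw [indicator_of_notMem hx]
          by_cases hxc : x ∈ closure S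
          · simp [(hf1 x hxc).2]
          · have hxt : x ∉ Metric.thickening ε S := fun h => hx ⟨h, hxc⟩
            simp [(hf2 x hxt).2]
      refine h4.trans ?_
      rw [integral_indicator (hmt.diff hmc), setIntegral_const, smul_eq_mul, mul_comm]
    rw [hdiff] at h3
    rw [hcompl] at h1
    have h5 : μ.real (closure S) * (1 - μ.real (Metric.thickening ε S)) ≤
        B * ((1 / a) * (μ.real (Metric.thickening ε S) - μ.real (closure S))) :=
      h1.trans (h2.trans (mul_le_mul_of_nonneg_left h3 hB.le))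
    calc μ.real (closure S) * (1 - μ.real (Metric.thickening ε S)) * a
        ≤ B * ((1 / a) * (μ.real (Metric.thickening ε S) - μ.real (closure S))) * a :=
          mul_le_mul_of_nonneg_right h5 ha.le
      _ = B * (μ.real (Metric.thickening ε S) - μ.real (closure S)) := by
          field_simp
  have htend : Tendsto (fun a : ℝ => μ.real (closure S) * (1 - μ.real (Metric.thickening ε S)) * a)
      (𝓝[<] ε) (𝓝 (μ.real (closure S) * (1 - μ.real (Metric.thickening ε S)) * ε)) := by
    refine Tendsto.mono_left ?_ nhdsWithin_le_nhds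
    exact (continuous_const.mul continuous_id).tendsto ε
  refine le_of_tendsto htend ?_
  filter_upwards [Ioo_mem_nhdsLT hε] with a ha
  exact hstep a ha.1 ha.2

end

theorem t_mink : S_mink := by
  intro κ _ D hD hDc hvol B hB H μ hμ S hS
  have hprob := prob D hD hvol μ hμ
  rcases S.eq_empty_or_nonempty with rfl | hne
  · simp
  have hB0 : ENNReal.ofReal B ≠ 0 := by
    rw [Ne, ENNReal.ofReal_eq_zero, not_le]; exact hB
  by_cases hcl : μ (closure S) = μ S
  · -- limit
    have h1 : Tendsto (fun ε : ℝ => (ENNReal.ofReal B)⁻¹ *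
        (μ (closure S) * (1 - μ (Metric.thickening ε S)))) (𝓝[>] 0)
        (𝓝 ((ENNReal.ofReal B)⁻¹ * (μ (closure S) * (1 - μ (closure S))))) := by
      have h2 : Tendsto (fun ε : ℝ => μ (Metric.thickening ε S)) (𝓝[>] 0) (𝓝 (μ (closure S))) :=
        tendsto_measure_thickening ⟨1, one_pos, measure_ne_top _ _⟩
      have h3 : Tendsto (fun ε : ℝ => 1 - μ (Metric.thickening ε S)) (𝓝[>] 0)
          (𝓝 (1 - μ (closure S))) :=
        ENNReal.Tendsto.sub tendsto_const_nhds h2 (Or.inl ENNReal.one_ne_top)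
      refine ENNReal.Tendsto.const_mul (ENNReal.Tendsto.const_mul h3 (Or.inr (measure_ne_top _ _)))
        (Or.inr ?_)
      exact ENNReal.inv_ne_top.2 hB0
    have h4 : (ENNReal.ofReal B)⁻¹ * (μ (closure S) * (1 - μ (closure S))) ≤
        liminf (fun ε : ℝ => (μ (Metric.thickening ε S) - μ S) / ENNReal.ofReal ε) (𝓝[>] 0) := by
      rw [← h1.liminf_eq]
      refine liminf_le_liminf ?_
      filter_upwards [Ioc_mem_nhdsGT one_pos] with ε hε
      have h5 := key D hD hvol B hB H μ hμ S hne ε hε.1 hε.2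
      rw [← hcl]
      have hs : μ (closure S) = ENNReal.ofReal (μ.real (closure S)) :=
        (ofReal_measureReal (measure_ne_top _ _)).symm
      have ht : μ (Metric.thickening ε S) = ENNReal.ofReal (μ.real (Metric.thickening ε S)) :=
        (ofReal_measureReal (measure_ne_top _ _)).symm
      have ht1 : μ.real (Metric.thickening ε S) ≤ 1 := measureReal_le_one
      have hs0 : 0 ≤ μ.real (closure S) := measureReal_nonneg
      rw [hs, ht, ← ENNReal.ofReal_one, ← ENNReal.ofReal_sub _ measureReal_nonneg,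
        ← ENNReal.ofReal_sub _ hs0, ← ENNReal.ofReal_mul hs0, ← ENNReal.ofReal_inv_of_pos hB,
        ← ENNReal.ofReal_mul (inv_nonneg.2 hB.le), ← ENNReal.ofReal_div_of_pos hε.1]
      refine ENNReal.ofReal_le_ofReal ?_
      rw [le_div_iff₀ hε.1, inv_mul_eq_div, div_mul_eq_mul_div, div_le_iff₀ hB]
      linarith
    calc μ S * (1 - μ S) = ENNReal.ofReal B *
          ((ENNReal.ofReal B)⁻¹ * (μ (closure S) * (1 - μ (closure S)))) := by
          rw [← mul_assoc, ENNReal.mul_inv_cancel hB0 ENNReal.ofReal_ne_top, one_mul, hcl]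
      _ ≤ _ := mul_le_mul_right h4 _
  · -- the quotient tends to infinity
    have hlt : μ S < μ (closure S) := lt_of_le_of_ne (measure_mono subset_closure) (Ne.symm hcl)
    have hd0 : μ (closure S) - μ S ≠ 0 := (tsub_pos_of_lt hlt).ne'
    have h1 : Tendsto (fun ε : ℝ => (μ (closure S) - μ S) / ENNReal.ofReal ε) (𝓝[>] 0) (𝓝 ⊤) := by
      have h2 : Tendsto (fun ε : ℝ => ENNReal.ofReal ε) (𝓝[>] 0) (𝓝 0) := by
        have h3 := (ENNReal.continuous_ofReal.tendsto 0).mono_left
          (nhdsWithin_le_nhds (s := Ioi (0 : ℝ)))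
        rwa [ENNReal.ofReal_zero] at h3
      have h3 := ENNReal.Tendsto.div (tendsto_const_nhds (x := μ (closure S) - μ S)) (Or.inl hd0) h2
        (Or.inr (ENNReal.sub_ne_top (measure_ne_top _ _)))
      rwa [ENNReal.div_zero hd0] at h3
    have h4 : (⊤ : ℝ≥0∞) ≤
        liminf (fun ε : ℝ => (μ (Metric.thickening ε S) - μ S) / ENNReal.ofReal ε) (𝓝[>] 0) := by
      rw [← h1.liminf_eq]
      refine liminf_le_liminf ?_
      filter_upwards [self_mem_nhdsWithin] with ε hε
      exact ENNReal.div_le_div_right (tsub_le_tsub_right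
        (measure_mono (Metric.closure_subset_thickening hε S)) _) _
    rw [top_le_iff.1 h4, ENNReal.mul_top hB0]
    exact le_top

end Pool.Agent.W800.KH
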