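import Pool.Agent.W695.KH.Defs

set_option autoImplicit false

/-! Mollification and De Giorgi perimeter. -/

namespace Pool.Agent.W800.KH

open MeasureTheory Set Filter Topology
open scoped ENNReal InnerProductSpace Pointwise Convolution
open Pool.Agent.W695.KH

section

variable {κ : Type} [Fintype κ] {F' : Type} [NormedAddCommGroup F'] [NormedSpace ℝ F']
  [CompleteSpace F']

/-- mollification -/
noncomputable def cv (φ : ContDiffBump (0 : Eu κ)) (G : Eu κ → F') : Eu κ → F' :=
  G ⋆[(ContinuousLinearMap.lsmul ℝ ℝ).flip, volume] (φ.normed volume)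

omit [CompleteSpace F'] in
theorem cv_apply (φ : ContDiffBump (0 : Eu κ)) (G : Eu κ → F') (x : Eu κ) :
    cv φ G x = ∫ t, φ.normed volume (x - t) • G t := by
  unfold cv
  rw [convolution_def]
  rfl

omit [CompleteSpace F'] in
theorem cv_flip (φ : ContDiffBump (0 : Eu κ)) (G : Eu κ → F') :
    cv φ G = (φ.normed volume) ⋆[ContinuousLinearMap.lsmul ℝ ℝ, volume] G := by
  unfold cv
  exact convolution_flip _

theorem cv_contDiff (φ : ContDiffBump (0 : Eu κ)) (G : Eu κ → F') (hG : LocallyIntegrable G)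
    (n : ℕ∞) : ContDiff ℝ n (cv φ G) :=
  φ.hasCompactSupport_normed.contDiff_convolution_right _ hG φ.contDiff_normed

theorem fderiv_cv (φ : ContDiffBump (0 : Eu κ)) (G : Eu κ → F') (hG : LocallyIntegrable G)
    (x v : Eu κ) : (Integrable fun t => (fderiv ℝ (φ.normed volume) (x - t) v) • G t) ∧
    fderiv ℝ (cv φ G) x v = ∫ t, (fderiv ℝ (φ.normed volume) (x - t) v) • G t := by
  have h1 := φ.hasCompactSupport_normed.hasFDerivAt_convolution_right (μ := volume)
    (ContinuousLinearMap.lsmul ℝ ℝ : ℝ →L[ℝ] F' →L[ℝ] F').flip hG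
    (φ.contDiff_normed (μ := volume) (n := 1)) x
  have h2 : fderiv ℝ (cv φ G) x = _ := h1.fderiv
  have h3 := (φ.hasCompactSupport_normed (μ := volume)).fderiv (𝕜 := ℝ)
  have hc : Continuous (fderiv ℝ (φ.normed (volume : Measure (Eu κ)))) :=
    (φ.contDiff_normed (μ := volume) (n := 1)).continuous_fderiv one_ne_zero
  have h4 := h3.convolutionExists_right
    ((ContinuousLinearMap.lsmul ℝ ℝ : ℝ →L[ℝ] F' →L[ℝ] F').flip.precompR (Eu κ)) hG hc x
  have h5 := h4.integrable
  refine ⟨?_, ?_⟩
  · have h6 := (ContinuousLinearMap.apply ℝ F' v).integrable_comp h5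
    exact h6
  · rw [h2, convolution_def, ContinuousLinearMap.integral_apply h5]
    rfl

omit [CompleteSpace F'] in
theorem int_rho (φ : ContDiffBump (0 : Eu κ)) (x : Eu κ) :
    (Integrable fun t => φ.normed volume (x - t)) ∧ ∫ t, φ.normed volume (x - t) = 1 := by
  constructor
  · exact (φ.integrable_normed (μ := volume)).comp_sub_left x
  · rw [integral_sub_left_eq_self (fun t => φ.normed volume t) volume x]
    exact φ.integral_normed

omit [CompleteSpace F'] in
theorem cv_norm_le (φ : ContDiffBump (0 : Eu κ)) (G : Eu κ → F') (C : ℝ) (hG : ∀ t, ‖G t‖ ≤ C)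
    (x : Eu κ) : ‖cv φ G x‖ ≤ C := by
  rw [cv_apply]
  obtain ⟨h1, h2⟩ := int_rho φ x
  calc ‖∫ t, φ.normed volume (x - t) • G t‖ ≤ ∫ t, φ.normed volume (x - t) * C := by
        refine norm_integral_le_of_norm_le (h1.mul_const C) (Eventually.of_forall fun t => ?_)
        rw [norm_smul, Real.norm_eq_abs, abs_of_nonneg (φ.nonneg_normed _)]
        exact mul_le_mul_of_nonneg_left (hG t) (φ.nonneg_normed _)
    _ = C := by rw [integral_mul_const, h2, one_mul]

omit [CompleteSpace F'] in
theorem cv_support (φ : ContDiffBump (0 : Eu κ)) (G : Eu κ → F') (D : Set (Eu κ))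
    (hG : ∀ t, t ∉ D → G t = 0) (δ : ℝ) (hδ : φ.rOut ≤ δ) :
    Function.support (cv φ G) ⊆ Metric.cthickening δ D := by
  intro x hx
  have h1 := support_convolution_subset (μ := volume)
    (ContinuousLinearMap.lsmul ℝ ℝ : ℝ →L[ℝ] F' →L[ℝ] F').flip hx
  obtain ⟨a, ha, b, hb, rfl⟩ := Set.mem_add.1 h1
  rw [φ.support_normed_eq, Metric.mem_ball, dist_zero_right] at hb
  have haD : a ∈ D := by
    by_contra h
    exact ha (hG a h)
  refine Metric.mem_cthickening_of_dist_le (a + b) a δ D haD ?_
  rw [dist_eq_norm, add_sub_cancel_left]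
  exact (hb.le).trans hδ

end

section

variable {κ : Type} [Fintype κ]

theorem sum_coord (L : Eu κ →L[ℝ] ℝ) (w : Eu κ) [DecidableEq κ] :
    ∑ i, L (EuclideanSpace.single i 1) * w i = L w := by
  have h := (EuclideanSpace.basisFun κ ℝ).sum_repr w
  conv_rhs => rw [← h]
  rw [map_sum]
  refine Finset.sum_congr rfl fun i _ => ?_
  rw [map_smul, smul_eq_mul, mul_comm]
  simp

theorem dv_cv (φ : ContDiffBump (0 : Eu κ)) (Y : Eu κ → Eu κ) (hY : LocallyIntegrable Y)
    (x : Eu κ) : dv (cv φ Y) x = ∫ t, fderiv ℝ (φ.normed volume) (x - t) (Y t) := by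
  classical
  unfold dv
  have h1 : ∀ i : κ, fderiv ℝ (cv φ Y) x (EuclideanSpace.single i 1) i =
      ∫ t, fderiv ℝ (φ.normed volume) (x - t) (EuclideanSpace.single i 1) * Y t i := by
    intro i
    obtain ⟨h2, h3⟩ := fderiv_cv φ Y hY x (EuclideanSpace.single i 1)
    rw [h3]
    have h4 := (EuclideanSpace.proj i : Eu κ →L[ℝ] ℝ).integral_comp_comm h2
    exact h4.symm
  have h5 : ∀ i : κ, Integrable fun t =>
      fderiv ℝ (φ.normed volume) (x - t) (EuclideanSpace.single i 1) * Y t i := by
    intro i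
    obtain ⟨h2, h3⟩ := fderiv_cv φ Y hY x (EuclideanSpace.single i 1)
    exact (EuclideanSpace.proj i : Eu κ →L[ℝ] ℝ).integrable_comp h2
  have h6 : ∑ i : κ, fderiv ℝ (cv φ Y) x (EuclideanSpace.single i 1) i =
      ∑ i : κ, ∫ t, fderiv ℝ (φ.normed volume) (x - t) (EuclideanSpace.single i 1) * Y t i :=
    Finset.sum_congr rfl fun i _ => h1 i
  refine Eq.trans ?_ (h6.trans ?_)
  · refine Finset.sum_congr rfl fun i _ => ?_
    congr!
  rw [← integral_finsetSum _ fun i _ => h5 i]
  refine integral_congr_ae (Eventually.of_forall fun t => ?_)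
  exact sum_coord _ _

theorem fderiv_even (φ : ContDiffBump (0 : Eu κ)) (z w : Eu κ) :
    fderiv ℝ (φ.normed volume) (-z) w = -fderiv ℝ (φ.normed volume) z w := by
  have h2 : HasFDerivAt (φ.normed (volume : Measure (Eu κ))) (fderiv ℝ (φ.normed volume) (-z)) (-z) :=
    ((φ.contDiff_normed (n := 1)).differentiable one_ne_zero _).hasFDerivAt
  have h3 := h2.comp z ((hasFDerivAt_id z).neg)
  have h4 : HasFDerivAt (φ.normed (volume : Measure (Eu κ)))
      ((fderiv ℝ (φ.normed volume) (-z)).comp (-ContinuousLinearMap.id ℝ (Eu κ))) z :=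
    h3.congr_of_eventuallyEq (Eventually.of_forall fun x => (φ.normed_neg x).symm)
  rw [h4.fderiv]
  simp

/-- **the key inequality** -/
theorem perim_key (Ω E D : Set (Eu κ)) (hE : MeasurableSet E) (hEv : volume E ≠ ⊤) (P : ℝ)
    (hP : PerLe Ω E P) (hD : IsCompact D) (δ : ℝ) (hδ : Metric.cthickening δ D ⊆ Ω)
    (φ : ContDiffBump (0 : Eu κ)) (hφ : φ.rOut ≤ δ) :
    ∫ x in D, ‖fderiv ℝ (cv φ (E.indicator fun _ => (1 : ℝ))) x‖ ≤ P := by
  classical
  set u := cv φ (E.indicator fun _ => (1 : ℝ)) with hu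
  have hloc : LocallyIntegrable (E.indicator fun _ => (1 : ℝ)) (volume : Measure (Eu κ)) :=
    ((integrable_indicator_iff hE).2 (integrableOn_const hEv)).locallyIntegrable
  have hu1 : ContDiff ℝ 1 u := cv_contDiff φ _ hloc 1
  have hcf : Continuous (fderiv ℝ u) := hu1.continuous_fderiv one_ne_zero
  set g : Eu κ → Eu κ := fun t => (InnerProductSpace.toDual ℝ (Eu κ)).symm (fderiv ℝ u t) with hg
  have hgc : Continuous g := (InnerProductSpace.toDual ℝ (Eu κ)).symm.continuous.comp hcf
  have hgn : ∀ t, ‖g t‖ = ‖fderiv ℝ u t‖ := fun t => LinearIsometryEquiv.norm_map _ _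
  have hgi : ∀ t w, fderiv ℝ u t w = ⟪g t, w⟫_ℝ := by
    intro t w
    rw [hg]
    simp
  set Y : Eu κ → Eu κ := D.indicator fun t => -(‖g t‖⁻¹ • g t) with hY
  have hYm : Measurable Y := by
    refine Measurable.indicator ?_ hD.measurableSet
    exact ((hgc.norm.measurable.inv).smul hgc.measurable).neg
  have hY1 : ∀ t, ‖Y t‖ ≤ 1 := by
    intro t
    rw [hY]
    refine (norm_indicator_le_norm_self _ _).trans ?_
    rw [norm_neg, norm_smul, norm_inv, norm_norm]
    by_cases h : ‖g t‖ = 0
    · rw [h]; simp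
    · rw [inv_mul_cancel₀ h]
  have hYD : ∀ t, t ∉ D → Y t = 0 := fun t ht => indicator_of_notMem ht _
  have hYint : Integrable Y := by
    refine Integrable.mono' (g := D.indicator fun _ => (1 : ℝ)) ?_ hYm.aestronglyMeasurable
      (Eventually.of_forall fun t => ?_)
    · exact (integrable_indicator_iff hD.measurableSet).2 (integrableOn_const hD.measure_lt_top.ne)
    · by_cases ht : t ∈ D
      · rw [indicator_of_mem ht]; exact hY1 t
      · rw [hYD t ht, indicator_of_notMem ht, norm_zero]
  -- test field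
  have hsupp := cv_support φ Y D hYD δ hφ
  have hcth : IsCompact (Metric.cthickening δ D) := hD.cthickening
  have htsupp : tsupport (cv φ Y) ⊆ Metric.cthickening δ D :=
    closure_minimal hsupp Metric.isClosed_cthickening
  have htest := hP (cv φ Y) (cv_contDiff φ Y hYint.locallyIntegrable 1)
    (hcth.of_isClosed_subset (isClosed_tsupport _) htsupp) (htsupp.trans hδ)
    (cv_norm_le φ Y 1 hY1)
  refine le_of_eq_of_le ?_ htest
  -- Fubini
  have hcρ : Continuous (fderiv ℝ (φ.normed (volume : Measure (Eu κ)))) :=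
    (φ.contDiff_normed (n := 1)).continuous_fderiv one_ne_zero
  obtain ⟨C, hC⟩ : ∃ C, ∀ z, ‖fderiv ℝ (φ.normed (volume : Measure (Eu κ))) z‖ ≤ C :=
    ((φ.hasCompactSupport_normed (μ := volume)).fderiv (𝕜 := ℝ)).exists_bound_of_continuous hcρ
  have hEfin : IsFiniteMeasure (volume.restrict E : Measure (Eu κ)) :=
    ⟨by rw [Measure.restrict_apply_univ]; exact lt_top_iff_ne_top.2 hEv⟩
  have hF : Integrable (Function.uncurry fun y t : Eu κ =>
      fderiv ℝ (φ.normed volume) (y - t) (Y t)) ((volume.restrict E).prod volume) := by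
    have hb : Integrable (fun z : Eu κ × Eu κ => D.indicator (fun _ => C) z.2)
        ((volume.restrict E).prod volume) := by
      have h1 : Integrable (D.indicator (fun _ => C) : Eu κ → ℝ) :=
        (integrable_indicator_iff hD.measurableSet).2 (integrableOn_const hD.measure_lt_top.ne)
      exact h1.comp_snd (volume.restrict E)
    refine Integrable.mono' hb ?_ (Eventually.of_forall fun z => ?_)
    · have h1 : Continuous fun q : Eu κ × Eu κ => fderiv ℝ (φ.normed volume) q.1 q.2 :=
        (hcρ.comp continuous_fst).clm_apply continuous_snd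
      have h2 : Measurable fun z : Eu κ × Eu κ => (z.1 - z.2, Y z.2) :=
        (measurable_fst.sub measurable_snd).prodMk (hYm.comp measurable_snd)
      exact (h1.measurable.comp h2).aestronglyMeasurable
    · simp only [Function.uncurry]
      by_cases ht : z.2 ∈ D
      · rw [indicator_of_mem ht]
        calc ‖fderiv ℝ (φ.normed volume) (z.1 - z.2) (Y z.2)‖
            ≤ ‖fderiv ℝ (φ.normed (volume : Measure (Eu κ))) (z.1 - z.2)‖ * ‖Y z.2‖ :=
              ContinuousLinearMap.le_opNorm _ _
          _ ≤ C * 1 := mul_le_mul (hC _) (hY1 _) (norm_nonneg _) ((norm_nonneg _).trans (hC 0))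
          _ = C := mul_one _
      · rw [hYD _ ht, indicator_of_notMem ht, map_zero, norm_zero]
  have h1 : ∫ x in E, dv (cv φ Y) x = ∫ t, ∫ y in E, fderiv ℝ (φ.normed volume) (y - t) (Y t) := by
    rw [← integral_integral_swap hF]
    refine integral_congr_ae (Eventually.of_forall fun x => ?_)
    exact dv_cv φ Y hYint.locallyIntegrable x
  have h2 : ∀ t, ∫ y in E, fderiv ℝ (φ.normed volume) (y - t) (Y t) = -fderiv ℝ u t (Y t) := by
    intro t
    obtain ⟨-, h3⟩ := fderiv_cv φ _ hloc t (Y t)
    rw [hu, h3, ← integral_neg, ← integral_indicator hE]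
    refine integral_congr_ae (Eventually.of_forall fun y => ?_)
    by_cases hy : y ∈ E
    · simp only [indicator_of_mem hy, smul_eq_mul, mul_one]
      rw [← fderiv_even, neg_sub]
    · simp only [indicator_of_notMem hy, smul_eq_mul, mul_zero, neg_zero]
  rw [h1, ← integral_indicator hD.measurableSet]
  refine integral_congr_ae (Eventually.of_forall fun t => ?_)
  simp only
  rw [h2]
  by_cases ht : t ∈ D
  · rw [indicator_of_mem ht, hgi, hY]
    simp only [indicator_of_mem ht]
    rw [inner_neg_right, neg_neg, inner_smul_right, real_inner_self_eq_norm_sq, hgn]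
    by_cases h : ‖fderiv ℝ u t‖ = 0
    · rw [h]; simp
    · field_simp
  · rw [indicator_of_notMem ht, hYD t ht, map_zero, neg_zero]

end

end Pool.Agent.W800.KH
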